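import Mathlib

/-!
# Mixing of the censored walk on monotone subsets of the hypercube: sparse sets

Lower bounds for the mixing time of the lazy censored walk on the union of two subcubes.
-/

namespace Pool.Agent.Results.MP_52661b_pr.SparseSets

open Finset

/-- `A` is monotone (up-closed). -/
def IsMonotone {n : ℕ} (A : Finset (Fin n → Bool)) : Prop :=
  ∀ x ∈ A, ∀ y : Fin n → Bool, (∀ i, x i ≤ y i) → y ∈ A

/-- The point `x` with coordinate `i` flipped. -/
def flip {n : ℕ} (x : Fin n → Bool) (i : Fin n) : Fin n → Bool :=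
  Function.update x i (!x i)

/-- The censored move: flip coordinate `i` if the result is in `A`, otherwise stay. -/
def move {n : ℕ} (A : Finset (Fin n → Bool)) (x : Fin n → Bool) (i : Fin n) : Fin n → Bool :=
  if flip x i ∈ A then flip x i else x

/-- One step of the lazy censored walk: with probability `1/2` stay put, otherwise pick `i`
uniformly among the `n` coordinates and make the censored move. -/
noncomputable def step {n : ℕ} (A : Finset (Fin n → Bool)) (x y : Fin n → Bool) : ℝ :=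
  1 / 2 * (if y = x then 1 else 0) +
    1 / 2 * ((1 / (n : ℝ)) * ∑ i : Fin n, if move A x i = y then (1 : ℝ) else 0)

/-- `law A x t y` is the probability that the walk started at `x` is at `y` after `t` steps. -/
noncomputable def law {n : ℕ} (A : Finset (Fin n → Bool)) (x : Fin n → Bool) :
    ℕ → (Fin n → Bool) → ℝ
  | 0, y => if y = x then 1 else 0
  | t + 1, y => ∑ z ∈ A, law A x t z * step A z y

/-- Total variation distance between the law after `t` steps from `x` and the uniform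
distribution on `A`. -/
noncomputable def tvDist {n : ℕ} (A : Finset (Fin n → Bool)) (x : Fin n → Bool) (t : ℕ) : ℝ :=
  1 / 2 * ∑ y ∈ A, |law A x t y - 1 / (A.card : ℝ)|

/-- From every starting state in `A`, the law after `t` steps is within `1/4` of uniform. -/
def IsMixed {n : ℕ} (A : Finset (Fin n → Bool)) (t : ℕ) : Prop :=
  ∀ x ∈ A, tvDist A x t ≤ 1 / 4

/-- The mixing time: the least `t` such that the walk is mixed at time `t`
(an element of `ℕ ∪ {∞}`). -/
noncomputable def tMix {n : ℕ} (A : Finset (Fin n → Bool)) : ℕ∞ :=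
  sInf {t : ℕ∞ | ∃ s : ℕ, t = s ∧ IsMixed A s}

section general

variable {n : ℕ} (A : Finset (Fin n → Bool))

lemma flip_flip (x : Fin n → Bool) (i : Fin n) : flip (flip x i) i = x := by
  ext j
  unfold flip
  by_cases h : j = i
  · subst h; simp
  · simp [Function.update_of_ne h]

lemma move_mem {x : Fin n → Bool} (hx : x ∈ A) (i : Fin n) : move A x i ∈ A := by
  unfold move
  split_ifs with h
  · exact h
  · exact hx

lemma move_symm {x y : Fin n → Bool} (hx : x ∈ A) (hy : y ∈ A) (i : Fin n)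
    (h : move A x i = y) : move A y i = x := by
  unfold move at h ⊢
  split_ifs at h with h1
  · subst h
    rw [flip_flip]
    simp [hx]
  · subst h
    simp [h1]

lemma step_symm {x y : Fin n → Bool} (hx : x ∈ A) (hy : y ∈ A) : step A x y = step A y x := by
  unfold step
  have h1 : (if y = x then (1:ℝ) else 0) = if x = y then 1 else 0 := by
    by_cases h : x = y
    · simp [h]
    · simp [h, Ne.symm h]
  rw [h1]
  congr 3
  refine Finset.sum_congr rfl fun i _ => ?_
  by_cases h : move A x i = y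
  · rw [if_pos h, if_pos (move_symm A hx hy i h)]
  · rw [if_neg h, if_neg fun h' => h (move_symm A hy hx i h')]

lemma step_nonneg (x y : Fin n → Bool) : 0 ≤ step A x y := by
  unfold step
  have h1 : (0:ℝ) ≤ if y = x then 1 else 0 := by split_ifs <;> norm_num
  have h2 : (0:ℝ) ≤ ∑ i : Fin n, if move A x i = y then (1 : ℝ) else 0 :=
    Finset.sum_nonneg fun i _ => by split_ifs <;> norm_num
  positivity

lemma step_row (hn : 0 < n) {x : Fin n → Bool} (hx : x ∈ A) : ∑ y ∈ A, step A x y = 1 := by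
  unfold step
  rw [Finset.sum_add_distrib, ← Finset.mul_sum, ← Finset.mul_sum, ← Finset.mul_sum,
    Finset.sum_comm]
  have h1 : ∑ y ∈ A, (if y = x then (1:ℝ) else 0) = 1 := by
    rw [Finset.sum_ite_eq' A x]
    simp [hx]
  have h2 : ∀ i : Fin n, ∑ y ∈ A, (if move A x i = y then (1:ℝ) else 0) = 1 := by
    intro i
    rw [Finset.sum_ite_eq A (move A x i)]
    simp [move_mem A hx i]
  rw [h1, Finset.sum_congr rfl fun i _ => h2 i]
  have : (n : ℝ) ≠ 0 := by positivity
  simp only [Finset.sum_const, Finset.card_univ, Fintype.card_fin, nsmul_eq_mul, mul_one]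
  field_simp
  norm_num

lemma step_col (hn : 0 < n) {y : Fin n → Bool} (hy : y ∈ A) : ∑ x ∈ A, step A x y = 1 := by
  rw [← step_row A hn hy]
  exact Finset.sum_congr rfl fun x hx => step_symm A hx hy

lemma law_nonneg (x : Fin n → Bool) (t : ℕ) (y : Fin n → Bool) : 0 ≤ law A x t y := by
  induction t generalizing y with
  | zero => simp only [law]; split_ifs <;> norm_num
  | succ t ih =>
    simp only [law]
    exact Finset.sum_nonneg fun z _ => mul_nonneg (ih z) (step_nonneg A z y)

lemma law_row (hn : 0 < n) {x : Fin n → Bool} (hx : x ∈ A) (t : ℕ) :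
    ∑ y ∈ A, law A x t y = 1 := by
  induction t with
  | zero =>
    simp only [law]
    rw [Finset.sum_ite_eq' A x]
    simp [hx]
  | succ t ih =>
    simp only [law]
    rw [Finset.sum_comm, ← ih]
    refine Finset.sum_congr rfl fun z hz => ?_
    rw [← Finset.mul_sum, step_row A hn hz, mul_one]

lemma law_col (hn : 0 < n) (t : ℕ) {y : Fin n → Bool} (hy : y ∈ A) :
    ∑ x ∈ A, law A x t y = 1 := by
  induction t generalizing y with
  | zero =>
    simp only [law]
    rw [Finset.sum_ite_eq A y]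
    simp [hy]
  | succ t ih =>
    simp only [law]
    rw [Finset.sum_comm, ← step_col A hn hy]
    refine Finset.sum_congr rfl fun z hz => ?_
    rw [← Finset.sum_mul, ih hz, one_mul]

/-- Conductance bound: mass that has left `T` by time `t`. -/
lemma escape (hn : 0 < n) {T : Finset (Fin n → Bool)} (hT : T ⊆ A) (t : ℕ) :
    ∑ x ∈ T, ∑ y ∈ A \ T, law A x t y ≤ t * ∑ z ∈ T, ∑ y ∈ A \ T, step A z y := by
  induction t with
  | zero =>
    simp only [law, Nat.cast_zero, zero_mul]
    refine (Finset.sum_eq_zero fun x hx => Finset.sum_eq_zero fun y hy => ?_).le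
    rw [if_neg]
    rintro rfl
    exact (Finset.mem_sdiff.1 hy).2 hx
  | succ t ih =>
    have key : ∀ x ∈ T, ∑ y ∈ A \ T, law A x (t + 1) y ≤
        ∑ y ∈ A \ T, law A x t y + ∑ z ∈ T, law A x t z * ∑ y ∈ A \ T, step A z y := by
      intro x hx
      simp only [law]
      rw [Finset.sum_comm]
      simp_rw [← Finset.mul_sum]
      rw [← Finset.sum_sdiff hT]
      refine add_le_add_left (Finset.sum_le_sum fun z hz => ?_) _
      have hzA := (Finset.mem_sdiff.1 hz).1
      have : ∑ y ∈ A \ T, step A z y ≤ 1 := by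
        rw [← step_row A hn hzA]
        exact Finset.sum_le_sum_of_subset_of_nonneg Finset.sdiff_subset
          fun y _ _ => step_nonneg A z y
      calc law A x t z * ∑ y ∈ A \ T, step A z y ≤ law A x t z * 1 :=
            mul_le_mul_of_nonneg_left this (law_nonneg A x t z)
        _ = law A x t z := mul_one _
    have h2 : ∑ x ∈ T, ∑ z ∈ T, law A x t z * ∑ y ∈ A \ T, step A z y ≤
        ∑ z ∈ T, ∑ y ∈ A \ T, step A z y := by
      rw [Finset.sum_comm]
      refine Finset.sum_le_sum fun z hz => ?_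
      rw [← Finset.sum_mul]
      have h3 : ∑ x ∈ T, law A x t z ≤ 1 := by
        rw [← law_col A hn t (hT hz)]
        exact Finset.sum_le_sum_of_subset_of_nonneg hT fun x _ _ => law_nonneg A x t z
      have h4 : 0 ≤ ∑ y ∈ A \ T, step A z y := Finset.sum_nonneg fun y _ => step_nonneg A z y
      calc (∑ x ∈ T, law A x t z) * ∑ y ∈ A \ T, step A z y ≤
            1 * ∑ y ∈ A \ T, step A z y := mul_le_mul_of_nonneg_right h3 h4
        _ = _ := one_mul _
    calc ∑ x ∈ T, ∑ y ∈ A \ T, law A x (t + 1) y ≤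
          ∑ x ∈ T, (∑ y ∈ A \ T, law A x t y +
            ∑ z ∈ T, law A x t z * ∑ y ∈ A \ T, step A z y) := Finset.sum_le_sum key
      _ = ∑ x ∈ T, ∑ y ∈ A \ T, law A x t y +
            ∑ x ∈ T, ∑ z ∈ T, law A x t z * ∑ y ∈ A \ T, step A z y :=
          Finset.sum_add_distrib
      _ ≤ t * ∑ z ∈ T, ∑ y ∈ A \ T, step A z y + ∑ z ∈ T, ∑ y ∈ A \ T, step A z y :=
          add_le_add ih h2
      _ = ((t + 1 : ℕ) : ℝ) * ∑ z ∈ T, ∑ y ∈ A \ T, step A z y := by push_cast; ring

lemma tv_ge (hn : 0 < n) {x : Fin n → Bool} (hx : x ∈ A) (t : ℕ) {S : Finset (Fin n → Bool)}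
    (hS : S ⊆ A) :
    (S.card : ℝ) / A.card - ∑ y ∈ S, law A x t y ≤ tvDist A x t := by
  have hA : (0:ℝ) < A.card := by exact_mod_cast Finset.card_pos.2 ⟨x, hx⟩
  unfold tvDist
  have h1 : ∑ y ∈ A, (1 / (A.card : ℝ) - law A x t y) = 0 := by
    rw [Finset.sum_sub_distrib, law_row A hn hx]
    simp only [Finset.sum_const, nsmul_eq_mul]
    field_simp
    norm_num
  have h2 : ∑ y ∈ S, (1 / (A.card : ℝ) - law A x t y) =
      (S.card : ℝ) / A.card - ∑ y ∈ S, law A x t y := by
    rw [Finset.sum_sub_distrib]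
    simp only [Finset.sum_const, nsmul_eq_mul]
    ring
  rw [← h2]
  rw [← Finset.sum_sdiff hS] at h1
  have h3 : ∑ y ∈ A, |law A x t y - 1 / (A.card : ℝ)| =
      ∑ y ∈ A \ S, |law A x t y - 1 / (A.card : ℝ)| + ∑ y ∈ S, |law A x t y - 1 / (A.card : ℝ)| :=
    (Finset.sum_sdiff hS).symm
  have h4 : ∑ y ∈ S, (1 / (A.card : ℝ) - law A x t y) ≤
      ∑ y ∈ S, |law A x t y - 1 / (A.card : ℝ)| :=
    Finset.sum_le_sum fun y _ => by rw [abs_sub_comm]; exact le_abs_self _
  have h5 : -∑ y ∈ A \ S, (1 / (A.card : ℝ) - law A x t y) ≤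
      ∑ y ∈ A \ S, |law A x t y - 1 / (A.card : ℝ)| := by
    rw [← Finset.sum_neg_distrib]
    exact Finset.sum_le_sum fun y _ => by rw [neg_sub]; exact le_abs_self _
  rw [h3]
  linarith

/-- If the walk is mixed at time `t`, then `|T| / 4 ≤ t * Q(T, A \ T)` whenever `|T| ≤ |A| / 2`. -/
lemma mixed_bound (hn : 0 < n) {T : Finset (Fin n → Bool)} (hT : T ⊆ A)
    (hcard : 2 * T.card ≤ A.card) {t : ℕ} (ht : IsMixed A t) :
    (T.card : ℝ) / 4 ≤ t * ∑ z ∈ T, ∑ y ∈ A \ T, step A z y := by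
  refine le_trans ?_ (escape A hn hT t)
  rcases T.eq_empty_or_nonempty with rfl | ⟨x0, hx0⟩
  · simp
  have hA : (0:ℝ) < A.card := by exact_mod_cast Finset.card_pos.2 ⟨x0, hT hx0⟩
  have key : ∀ x ∈ T, (1:ℝ) / 4 ≤ ∑ y ∈ A \ T, law A x t y := by
    intro x hx
    have h1 := tv_ge A hn (hT hx) t (S := A \ T) Finset.sdiff_subset
    have h2 := ht x (hT hx)
    have h3 : (1:ℝ) / 2 ≤ ((A \ T).card : ℝ) / A.card := by
      rw [le_div_iff₀ hA, Finset.card_sdiff_of_subset hT,
        Nat.cast_sub (Finset.card_le_card hT)]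
      have : (2:ℝ) * T.card ≤ A.card := by exact_mod_cast hcard
      linarith
    linarith
  calc (T.card : ℝ) / 4 = ∑ x ∈ T, (1:ℝ) / 4 := by simp; ring
    _ ≤ _ := Finset.sum_le_sum key

end general

section subcubes

/-- The subcube of all points that are `1` on the coordinates in `I`. -/
def cube {n : ℕ} (I : Finset (Fin n)) : Finset (Fin n → Bool) :=
  Fintype.piFinset fun i => if i ∈ I then {true} else Finset.univ

lemma mem_cube {n : ℕ} {I : Finset (Fin n)} {x : Fin n → Bool} :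
    x ∈ cube I ↔ ∀ i ∈ I, x i = true := by
  unfold cube
  rw [Fintype.mem_piFinset]
  constructor
  · intro h i hi
    have := h i
    rw [if_pos hi] at this
    simpa using this
  · intro h i
    by_cases hi : i ∈ I
    · rw [if_pos hi, h i hi]; simp
    · rw [if_neg hi]; simp

lemma card_cube {n : ℕ} (I : Finset (Fin n)) : (cube I).card = 2 ^ (n - I.card) := by
  unfold cube
  rw [Fintype.card_piFinset]
  have h1 : ∀ i : Fin n, (if i ∈ I then ({true} : Finset Bool) else Finset.univ).card =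
      if i ∈ I then 1 else 2 := by
    intro i; split_ifs <;> simp
  rw [Finset.prod_congr rfl fun i _ => h1 i]
  rw [Finset.prod_ite]
  simp only [Finset.prod_const_one, Finset.prod_const, one_mul]
  congr 1
  have : (Finset.univ.filter fun i : Fin n => i ∉ I) = Iᶜ := by
    ext i; simp
  rw [this, Finset.card_compl, Fintype.card_fin]

lemma cube_inter {n : ℕ} (I J : Finset (Fin n)) : cube I ∩ cube J = cube (I ∪ J) := by
  ext x
  rw [Finset.mem_inter, mem_cube, mem_cube, mem_cube]
  constructor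
  · rintro ⟨h1, h2⟩ i hi
    rcases Finset.mem_union.1 hi with h | h
    · exact h1 i h
    · exact h2 i h
  · intro h
    exact ⟨fun i hi => h i (Finset.mem_union_left _ hi),
      fun i hi => h i (Finset.mem_union_right _ hi)⟩

lemma cube_mono {n : ℕ} (I : Finset (Fin n)) : IsMonotone (cube I) := by
  intro x hx y hxy
  rw [mem_cube] at hx ⊢
  intro i hi
  have h := hxy i
  rw [hx i hi] at h
  exact le_antisymm (Bool.le_true _) h

/-- The two-cube set. -/
def twoCube {n : ℕ} (I J : Finset (Fin n)) : Finset (Fin n → Bool) := cube I ∪ cube J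

lemma twoCube_mono {n : ℕ} (I J : Finset (Fin n)) : IsMonotone (twoCube I J) := by
  intro x hx y hxy
  unfold twoCube at hx ⊢
  rcases Finset.mem_union.1 hx with h | h
  · exact Finset.mem_union_left _ (cube_mono I x h y hxy)
  · exact Finset.mem_union_right _ (cube_mono J x h y hxy)

lemma flow_bound {n : ℕ} (hn : 0 < n) {I J : Finset (Fin n)} (hIJ : Disjoint I J) :
    ∑ z ∈ cube I \ cube J, ∑ y ∈ twoCube I J \ (cube I \ cube J), step (twoCube I J) z y ≤
      (J.card : ℝ) * 2 ^ (n - (I.card + J.card)) / (2 * n) := by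
  classical
  set A := twoCube I J with hA
  have hsub : A \ (cube I \ cube J) = cube J := by
    ext x
    simp only [hA, twoCube, Finset.mem_sdiff, Finset.mem_union]
    tauto
  rw [hsub]
  -- rewrite the flow
  have h1 : ∀ z ∈ cube I \ cube J, ∑ y ∈ cube J, step A z y ≤
      1 / (2 * (n:ℝ)) * ∑ i : Fin n, if flip z i ∈ cube J then (1:ℝ) else 0 := by
    intro z hz
    obtain ⟨hzI, hzJ⟩ := Finset.mem_sdiff.1 hz
    unfold step
    rw [Finset.sum_add_distrib, ← Finset.mul_sum, ← Finset.mul_sum, ← Finset.mul_sum,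
      Finset.sum_comm]
    have h2 : ∑ y ∈ cube J, (if y = z then (1:ℝ) else 0) = 0 := by
      rw [Finset.sum_ite_eq' (cube J) z]
      simp [hzJ]
    have h3 : ∀ i : Fin n, ∑ y ∈ cube J, (if move A z i = y then (1:ℝ) else 0) ≤
        if flip z i ∈ cube J then (1:ℝ) else 0 := by
      intro i
      rw [Finset.sum_ite_eq (cube J) (move A z i)]
      unfold move
      split_ifs <;> norm_num
    rw [h2]
    have h4 := Finset.sum_le_sum fun i (_ : i ∈ (Finset.univ : Finset (Fin n))) => h3 i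
    have hn' : (0:ℝ) < n := by exact_mod_cast hn
    calc 1 / 2 * (0:ℝ) + 1 / 2 * (1 / (n:ℝ) *
          ∑ i : Fin n, ∑ y ∈ cube J, if move A z i = y then (1:ℝ) else 0) ≤
        1 / 2 * (0:ℝ) + 1 / 2 * (1 / (n:ℝ) *
          ∑ i : Fin n, if flip z i ∈ cube J then (1:ℝ) else 0) := by gcongr
      _ = _ := by field_simp; ring
  refine le_trans (Finset.sum_le_sum h1) ?_
  rw [← Finset.mul_sum, Finset.sum_comm]
  have h5 : ∀ i : Fin n, ∑ z ∈ cube I \ cube J, (if flip z i ∈ cube J then (1:ℝ) else 0) ≤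
      if i ∈ J then (2:ℝ) ^ (n - (I.card + J.card)) else 0 := by
    intro i
    rw [← Finset.sum_filter, Finset.sum_const, nsmul_eq_mul, mul_one]
    split_ifs with hi
    · have h6 : (((cube I \ cube J).filter fun z => flip z i ∈ cube J).image fun z => flip z i) ⊆
          cube (I ∪ J) := by
        intro w hw
        obtain ⟨z, hz, rfl⟩ := Finset.mem_image.1 hw
        obtain ⟨hz1, hz2⟩ := Finset.mem_filter.1 hz
        obtain ⟨hzI, hzJ⟩ := Finset.mem_sdiff.1 hz1
        rw [← cube_inter, Finset.mem_inter]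
        refine ⟨?_, hz2⟩
        rw [mem_cube] at hzI ⊢
        intro j hj
        have hji : j ≠ i := by
          rintro rfl
          exact (Finset.disjoint_left.1 hIJ) hj hi
        unfold flip
        rw [Function.update_of_ne hji]
        exact hzI j hj
      have h7 := Finset.card_le_card h6
      rw [Finset.card_image_of_injective, card_cube, Finset.card_union_of_disjoint hIJ] at h7
      · exact_mod_cast h7
      · intro a b hab
        have := congrArg (fun w => flip w i) hab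
        simpa [flip_flip] using this
    · have h8 : ((cube I \ cube J).filter fun z => flip z i ∈ cube J) = ∅ := by
        rw [Finset.filter_eq_empty_iff]
        intro z hz hz2
        obtain ⟨hzI, hzJ⟩ := Finset.mem_sdiff.1 hz
        apply hzJ
        rw [mem_cube] at hz2 ⊢
        intro j hj
        have hji : j ≠ i := by rintro rfl; exact hi hj
        have := hz2 j hj
        unfold flip at this
        rwa [Function.update_of_ne hji] at this
      rw [h8]; simp
  have hn' : (0:ℝ) < n := by exact_mod_cast hn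
  calc 1 / (2 * (n:ℝ)) * ∑ i : Fin n, ∑ z ∈ cube I \ cube J,
        (if flip z i ∈ cube J then (1:ℝ) else 0) ≤
      1 / (2 * (n:ℝ)) * ∑ i : Fin n, (if i ∈ J then (2:ℝ) ^ (n - (I.card + J.card)) else 0) := by
        gcongr with i _
        exact h5 i
    _ = _ := by
      rw [← Finset.sum_filter, Finset.sum_const, nsmul_eq_mul]
      have : (Finset.univ.filter fun i : Fin n => i ∈ J) = J := by ext i; simp
      rw [this]
      field_simp

lemma card_twoCube {n k : ℕ} {I J : Finset (Fin n)} (hIJ : Disjoint I J) (hI : I.card = k)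
    (hJ : J.card = k) : (twoCube I J).card + 2 ^ (n - 2 * k) = 2 * 2 ^ (n - k) := by
  have h := Finset.card_union_add_card_inter (cube I) (cube J)
  rw [cube_inter, card_cube, card_cube, card_cube, Finset.card_union_of_disjoint hIJ, hI, hJ] at h
  unfold twoCube
  rw [two_mul k, two_mul (2 ^ (n - k))]
  exact h

/-- The main quantitative bound. -/
theorem twoCube_mixing {n k : ℕ} (hk : 1 ≤ k) (hkn : 2 * k ≤ n) {I J : Finset (Fin n)}
    (hIJ : Disjoint I J) (hI : I.card = k) (hJ : J.card = k) {t : ℕ}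
    (ht : IsMixed (twoCube I J) t) : (n : ℝ) * (2 ^ k - 1) / (2 * k) ≤ t := by
  have hn : 0 < n := by omega
  set A := twoCube I J with hA
  have hT : cube I \ cube J ⊆ A := fun x hx =>
    Finset.mem_union_left _ (Finset.mem_sdiff.1 hx).1
  have hinter : (cube I ∩ cube J).card = 2 ^ (n - 2 * k) := by
    rw [cube_inter, card_cube, Finset.card_union_of_disjoint hIJ, hI, hJ, two_mul]
  have hTc : (cube I \ cube J).card + 2 ^ (n - 2 * k) = 2 ^ (n - k) := by
    rw [← hinter, Finset.card_sdiff_add_card_inter, card_cube, hI]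
  have hAc := card_twoCube hIJ hI hJ
  have hcard : 2 * (cube I \ cube J).card ≤ A.card := by
    rw [hA]
    omega
  have hb := mixed_bound A hn hT hcard ht
  have hf := flow_bound hn hIJ
  rw [← hA, hI, hJ] at hf
  have hn' : (0:ℝ) < n := by exact_mod_cast hn
  have hk' : (0:ℝ) < k := by exact_mod_cast hk
  have e1 : ((cube I \ cube J).card : ℝ) = 2 ^ (n - 2 * k) * (2 ^ k - 1) := by
    have h : ((cube I \ cube J).card : ℝ) + 2 ^ (n - 2 * k) = 2 ^ (n - k) := by exact_mod_cast hTc
    have h2 : (2:ℝ) ^ (n - k) = 2 ^ (n - 2 * k) * 2 ^ k := by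
      rw [← pow_add]; congr 1; omega
    rw [h2] at h
    linarith
  have hp : (0:ℝ) < 2 ^ (n - 2 * k) := by positivity
  have h6 : (2:ℝ) ^ (n - 2 * k) * (2 ^ k - 1) / 4 ≤
      t * ((k : ℝ) * 2 ^ (n - 2 * k) / (2 * n)) := by
    rw [← e1]
    refine hb.trans ?_
    rw [two_mul k]
    exact mul_le_mul_of_nonneg_left hf (Nat.cast_nonneg _)
  rw [div_le_iff₀ (by positivity)]
  have h7 : (2:ℝ) ^ (n - 2 * k) * (2 ^ k - 1) / 4 * (2 * n * 2) ≤
      t * ((k : ℝ) * 2 ^ (n - 2 * k) / (2 * n)) * (2 * n * 2) :=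
    mul_le_mul_of_nonneg_right h6 (by positivity)
  have h8 : (t:ℝ) * ((k : ℝ) * 2 ^ (n - 2 * k) / (2 * n)) * (2 * n * 2) =
      2 ^ (n - 2 * k) * (t * (2 * k)) := by field_simp
  have h9 : (2:ℝ) ^ (n - 2 * k) * (2 ^ k - 1) / 4 * (2 * n * 2) =
      2 ^ (n - 2 * k) * (n * (2 ^ k - 1)) := by ring
  rw [h8, h9] at h7
  exact le_of_mul_le_mul_left h7 hp

end subcubes

lemma exists_sets {n k : ℕ} (hkn : 2 * k ≤ n) : ∃ I J : Finset (Fin n), Disjoint I J ∧
    I.card = k ∧ J.card = k := by
  obtain ⟨I, hI, hIc⟩ := Finset.exists_subset_card_eq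
    (s := (Finset.univ : Finset (Fin n))) (n := k) (by simp; omega)
  obtain ⟨J, hJ, hJc⟩ := Finset.exists_subset_card_eq
    (s := Iᶜ) (n := k) (by rw [Finset.card_compl, Fintype.card_fin, hIc]; omega)
  refine ⟨I, J, ?_, hIc, hJc⟩
  rw [Finset.disjoint_left]
  intro i hi hj
  exact (Finset.mem_compl.1 (hJ hj)) hi

lemma density {n k : ℕ} (hkn : 2 * k ≤ n) {I J : Finset (Fin n)} (hIJ : Disjoint I J)
    (hI : I.card = k) (hJ : J.card = k) :
    ((twoCube I J).card : ℝ) / 2 ^ n = 2 / 2 ^ k - 1 / 4 ^ k := by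
  have h := card_twoCube hIJ hI hJ
  have h' : ((twoCube I J).card : ℝ) + 2 ^ (n - 2 * k) = 2 * 2 ^ (n - k) := by exact_mod_cast h
  have h1 : (2:ℝ) ^ n = 2 ^ (n - 2 * k) * 4 ^ k := by
    rw [show (4:ℝ) = 2 ^ 2 by norm_num, ← pow_mul, ← pow_add]; congr 1; omega
  have h2 : (2:ℝ) ^ (n - k) = 2 ^ (n - 2 * k) * 2 ^ k := by rw [← pow_add]; congr 1; omega
  have h3 : (4:ℝ) ^ k = 2 ^ k * 2 ^ k := by rw [← mul_pow]; norm_num
  have h4 : ((twoCube I J).card : ℝ) = 2 ^ (n - 2 * k) * (2 * 2 ^ k - 1) := by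
    rw [h2] at h'; linarith
  rw [h4, h1, h3]
  have : (0:ℝ) < 2 ^ (n - 2 * k) := by positivity
  field_simp

/-- **Sparse monotone sets can mix slowly.**

(1) For all `1 ≤ k`, `2 k ≤ n` there is a monotone set of density exactly `2^(1-k) - 4^(-k)` with
mixing time at least `n (2^k - 1) / (2 k)`.

(2) For every constant `C` and every large enough `n` there is a monotone set of density at least
`1 / (log n)^2` with mixing time larger than `C n log n`.
-/
theorem result :
    (∀ n k : ℕ, 1 ≤ k → 2 * k ≤ n → ∃ A : Finset (Fin n → Bool), A.Nonempty ∧ IsMonotone A ∧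
      (A.card : ℝ) / 2 ^ n = 2 / 2 ^ k - 1 / 4 ^ k ∧
      ∀ m : ℕ, tMix A ≤ m → (n : ℝ) * (2 ^ k - 1) / (2 * k) ≤ m) ∧
    (∀ C : ℝ, ∃ N : ℕ, ∀ n : ℕ, N ≤ n → ∃ A : Finset (Fin n → Bool), A.Nonempty ∧
      IsMonotone A ∧ 1 / (Real.log n) ^ 2 ≤ (A.card : ℝ) / 2 ^ n ∧
      ∀ m : ℕ, tMix A ≤ m → C * n * Real.log n < m) := by
  have main : ∀ n k : ℕ, 1 ≤ k → 2 * k ≤ n → ∃ A : Finset (Fin n → Bool), A.Nonempty ∧
      IsMonotone A ∧ (A.card : ℝ) / 2 ^ n = 2 / 2 ^ k - 1 / 4 ^ k ∧
      ∀ m : ℕ, tMix A ≤ m → (n : ℝ) * (2 ^ k - 1) / (2 * k) ≤ m := by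
    intro n k hk hkn
    obtain ⟨I, J, hIJ, hI, hJ⟩ := exists_sets hkn
    refine ⟨twoCube I J, ⟨fun _ => true, Finset.mem_union_left _ (mem_cube.2 fun _ _ => rfl)⟩,
      twoCube_mono I J, density hkn hIJ hI hJ, ?_⟩
    intro m hm
    unfold tMix at hm
    by_contra hcon
    push Not at hcon
    have hlt : sInf {t : ℕ∞ | ∃ s : ℕ, t = s ∧ IsMixed (twoCube I J) s} < ((m + 1 : ℕ) : ℕ∞) :=
      lt_of_le_of_lt hm (by exact_mod_cast Nat.lt_succ_self m)
    obtain ⟨t, ⟨s, rfl, hs⟩, hts⟩ := sInf_lt_iff.1 hlt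
    have h1 : s ≤ m := by
      have : s < m + 1 := by exact_mod_cast hts
      omega
    have h2 := twoCube_mixing hk hkn hIJ hI hJ hs
    have h3 : (s:ℝ) ≤ m := by exact_mod_cast h1
    linarith
  refine ⟨main, ?_⟩
  intro C
  -- choose `k` with `2^k ≤ (log n)^2 < 2^(k+1)`
  have hlog : Filter.Tendsto (fun n : ℕ => Real.log (n:ℝ)) Filter.atTop Filter.atTop :=
    Real.tendsto_log_atTop.comp tendsto_natCast_atTop_atTop
  have hlit : ∀ᶠ L : ℝ in Filter.atTop, (6 * |C| + 6) * Real.log L + 1 < L / 2 := by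
    have h := (Real.isLittleO_log_id_atTop).bound (c := 1 / (4 * (6 * |C| + 6)))
      (by positivity)
    filter_upwards [h, Filter.eventually_gt_atTop (4:ℝ)] with L hL hL4
    simp only [id, Real.norm_eq_abs] at hL
    rw [abs_of_pos (Real.log_pos (by linarith)), abs_of_pos (by linarith : (0:ℝ) < L)] at hL
    have h2 : (6 * |C| + 6) * Real.log L ≤ (6 * |C| + 6) * (1 / (4 * (6 * |C| + 6)) * L) :=
      mul_le_mul_of_nonneg_left hL (by positivity)
    have h3 : (6 * |C| + 6) * (1 / (4 * (6 * |C| + 6)) * L) = L / 4 := by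
      have : (6 * |C| + 6) ≠ 0 := by positivity
      field_simp
    linarith
  have hev : ∀ᶠ n : ℕ in Filter.atTop, (6 * |C| + 6) * Real.log (Real.log n) + 1 < Real.log n / 2 ∧
      2 < Real.log n := (hlog.eventually hlit).and (hlog.eventually_gt_atTop 2)
  obtain ⟨N, hN⟩ := Filter.eventually_atTop.1 hev
  refine ⟨N, fun n hn => ?_⟩
  obtain ⟨h1, h2⟩ := hN n hn
  set L := Real.log n with hL
  have hLL : 0 < Real.log L := Real.log_pos (by linarith)
  set k := Nat.log 2 ⌊L ^ 2⌋₊ with hk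
  have hfl : 4 ≤ ⌊L ^ 2⌋₊ := by
    apply Nat.le_floor
    push_cast
    nlinarith
  have hk1 : 1 ≤ k := by
    rw [hk]
    exact Nat.log_pos (by norm_num) (by omega)
  have hk2 : (2:ℝ) ^ k ≤ L ^ 2 := by
    have : 2 ^ k ≤ ⌊L ^ 2⌋₊ := Nat.pow_log_le_self 2 (by omega)
    calc (2:ℝ) ^ k ≤ (⌊L ^ 2⌋₊ : ℝ) := by exact_mod_cast this
      _ ≤ L ^ 2 := Nat.floor_le (by positivity)
  have hk3 : L ^ 2 < (2:ℝ) ^ (k + 1) := by
    have : ⌊L ^ 2⌋₊ < 2 ^ (k + 1) := Nat.lt_pow_succ_log_self (by norm_num) _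
    have h' : (⌊L ^ 2⌋₊ : ℝ) + 1 ≤ (2:ℝ) ^ (k + 1) := by exact_mod_cast this
    exact lt_of_lt_of_le (Nat.lt_floor_add_one _) h'
  -- upper bound on `k`
  have hk4 : (k : ℝ) ≤ 3 * Real.log L := by
    have h := Real.log_le_log (by positivity) hk2
    rw [Real.log_pow, Real.log_pow] at h
    have h3 : (0.6931471803 : ℝ) < Real.log 2 := Real.log_two_gt_d9
    push_cast at h
    have hk0 : (0:ℝ) ≤ k := Nat.cast_nonneg _
    nlinarith
  have hnpos : 0 < (n:ℝ) := by
    by_contra hcon
    have : (n:ℝ) = 0 := le_antisymm (not_lt.1 hcon) (Nat.cast_nonneg _)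
    rw [hL, this, Real.log_zero] at h2
    linarith
  have hLn : L ≤ n := by
    rw [hL]
    exact (Real.log_le_sub_one_of_pos hnpos).trans (by linarith)
  have hCabs := abs_nonneg C
  have hkn : 2 * k ≤ n := by
    have : (2:ℝ) * k ≤ n := by nlinarith
    exact_mod_cast this
  obtain ⟨A, hA1, hA2, hA3, hA4⟩ := main n k hk1 hkn
  refine ⟨A, hA1, hA2, ?_, fun m hm => lt_of_lt_of_le ?_ (hA4 m hm)⟩
  · rw [hA3]
    have h3 : 1 / L ^ 2 ≤ 1 / (2:ℝ) ^ k := one_div_le_one_div_of_le (by positivity) hk2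
    have h4 : 1 / (4:ℝ) ^ k ≤ 1 / 2 ^ k := by
      apply one_div_le_one_div_of_le (by positivity)
      exact pow_le_pow_left₀ (by norm_num) (by norm_num) k
    have h5 : (2:ℝ) / 2 ^ k = 1 / 2 ^ k + 1 / 2 ^ k := by ring
    linarith
  · have hk' : (0:ℝ) < k := by exact_mod_cast hk1
    rw [lt_div_iff₀ (by positivity)]
    have h3 : L ^ 2 / 2 - 1 < 2 ^ k - 1 := by
      rw [pow_succ (2:ℝ) k] at hk3; linarith
    have h4 : C * L * (2 * k) < L ^ 2 / 2 - 1 := by
      have h5 : C * L * (2 * k) ≤ |C| * L * (2 * (3 * Real.log L)) := by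
        have : C * L * (2 * k) ≤ |C| * L * (2 * k) := by
          have := le_abs_self C
          gcongr
        refine this.trans ?_
        gcongr
      have h6 : |C| * (6 * Real.log L) + 1 < L / 2 := by nlinarith
      have h7 : L * (|C| * (6 * Real.log L) + 1) < L * (L / 2) :=
        mul_lt_mul_of_pos_left h6 (by linarith)
      nlinarith
    have h5 : C * L * (2 * k) < 2 ^ k - 1 := h4.trans h3
    calc C * n * L * (2 * k) = n * (C * L * (2 * k)) := by ring
      _ < n * (2 ^ k - 1) := mul_lt_mul_of_pos_left h5 hnpos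

end Pool.Agent.Results.MP_52661b_pr.SparseSets
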